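import Pool.Agent.MP_9fb7a1_lc.Defs
import Pool.Agent.Lib.Oracle.Basic
import Pool.Agent.Lib.Oracle.NormalForm

-- part MP_9fb7a1_lc.Prob
section

namespace Pool.Agent.MP_9fb7a1_lc

open Filter MeasureTheory Topology Finset Pool.Agent.Lib.Oracle

lemma tendsto_sqrt_nat : Tendsto Nat.sqrt atTop atTop := by
  refine tendsto_atTop.2 fun b => ?_
  filter_upwards [eventually_ge_atTop (b * b)] with n hn
  exact Nat.le_sqrt.2 hn

/-- Interpolation between squares. -/
lemma tendsto_of_squares (e : ℕ → ℝ) (h1 : ∀ i, |e i| ≤ 1)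
    (h : Tendsto (fun k : ℕ => (∑ i ∈ range (k * k), e i) / ((k * k : ℕ) : ℝ)) atTop (𝓝 0)) :
    Tendsto (fun n : ℕ => (∑ i ∈ range n, e i) / n) atTop (𝓝 0) := by
  have hb : Tendsto (fun k : ℕ => |(∑ i ∈ range (k * k), e i) / ((k * k : ℕ) : ℝ)| + 2 / (k : ℝ))
      atTop (𝓝 0) := by
    have h2 : Tendsto (fun k : ℕ => 2 / (k : ℝ)) atTop (𝓝 0) :=
      tendsto_const_div_atTop_nhds_zero_nat 2
    simpa using (h.abs).add h2
  have hb' := hb.comp tendsto_sqrt_nat
  refine squeeze_zero_norm' ?_ hb'
  filter_upwards [eventually_ge_atTop 1] with n hn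
  set k := Nat.sqrt n with hk
  have hk1 : k * k ≤ n := Nat.sqrt_le n
  have hk2 : n ≤ k * k + k + k := Nat.sqrt_le_add n
  have hk0 : 1 ≤ k := Nat.le_sqrt.2 (by omega)
  have hkR : (0 : ℝ) < k := by exact_mod_cast hk0
  have hkk : (0 : ℝ) < ((k * k : ℕ) : ℝ) := by positivity
  have hnR : ((k * k : ℕ) : ℝ) ≤ n := by exact_mod_cast hk1
  have hsplit : ∑ i ∈ range n, e i = ∑ i ∈ range (k * k), e i + ∑ i ∈ Ico (k * k) n, e i :=
    (Finset.sum_range_add_sum_Ico e hk1).symm
  have htail : |∑ i ∈ Ico (k * k) n, e i| ≤ 2 * k := by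
    refine (Finset.abs_sum_le_sum_abs _ _).trans ?_
    refine (Finset.sum_le_sum fun i _ => h1 i).trans ?_
    simp only [sum_const, Nat.card_Ico, nsmul_eq_mul, mul_one]
    have : n - k * k ≤ 2 * k := by omega
    exact_mod_cast this
  simp only [Function.comp, Real.norm_eq_abs, ← hk]
  rw [abs_div, abs_div, abs_of_pos hkk, abs_of_pos (hkk.trans_le hnR), hsplit]
  have e1 : 2 / (k : ℝ) = 2 * k / ((k * k : ℕ) : ℝ) := by
    push_cast; field_simp
  rw [e1, ← add_div]
  refine div_le_div₀ (by positivity) ((abs_add_le _ _).trans (by linarith)) hkk hnR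

/-- An `L^2` strong law of large numbers for bounded, negatively correlated increments. -/
lemma slln2 {Ω : Type*} [MeasurableSpace Ω] (μ : Measure Ω) [IsProbabilityMeasure μ]
    (ε : ℕ → Ω → ℝ) (hm : ∀ i, Measurable (ε i)) (h1 : ∀ i ω, |ε i ω| ≤ 1)
    (hneg : ∀ n, ∫ ω, (∑ i ∈ range n, ε i ω) * ε n ω ∂μ ≤ 0) :
    ∀ᵐ ω ∂μ, Tendsto (fun n : ℕ => (∑ i ∈ range n, ε i ω) / n) atTop (𝓝 0) := by
  set S : ℕ → Ω → ℝ := fun n ω => ∑ i ∈ range n, ε i ω with hS
  have hSm : ∀ n, Measurable (S n) := fun n => Finset.measurable_fun_sum _ fun i _ => hm i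
  have hSb : ∀ n ω, |S n ω| ≤ n := fun n ω => by
    refine (Finset.abs_sum_le_sum_abs _ _).trans ?_
    refine (Finset.sum_le_sum fun i _ => h1 i ω).trans ?_
    simp
  have hint : ∀ (f g : Ω → ℝ) (a b : ℝ), Measurable f → Measurable g → (∀ ω, |f ω| ≤ a) →
      (∀ ω, |g ω| ≤ b) → Integrable (fun ω => f ω * g ω) μ := by
    intro f g a b hf hg ha hb
    refine Integrable.of_bound (hf.mul hg).aestronglyMeasurable (a * b) (ae_of_all _ fun ω => ?_)
    rw [Real.norm_eq_abs, abs_mul]
    exact mul_le_mul (ha ω) (hb ω) (abs_nonneg _) ((abs_nonneg _).trans (ha ω))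
  have hvar : ∀ n, ∫ ω, S n ω * S n ω ∂μ ≤ n := by
    intro n
    induction n with
    | zero => simp [hS]
    | succ n ih =>
      have e : ∀ ω, S (n + 1) ω * S (n + 1) ω =
          S n ω * S n ω + 2 * (S n ω * ε n ω) + ε n ω * ε n ω := fun ω => by
        simp only [hS, Finset.sum_range_succ]; ring
      have i1 := hint _ _ _ _ (hSm n) (hSm n) (hSb n) (hSb n)
      have i2 := hint _ _ _ _ (hSm n) (hm n) (hSb n) (h1 n)
      have i3 := hint _ _ _ _ (hm n) (hm n) (h1 n) (h1 n)
      simp only [e]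
      have i4 : Integrable (fun ω => S n ω * S n ω + 2 * (S n ω * ε n ω)) μ :=
        i1.add (i2.const_mul 2)
      rw [integral_add i4 i3, integral_add i1 (i2.const_mul 2), integral_const_mul]
      have h3 : ∫ ω, ε n ω * ε n ω ∂μ ≤ 1 := by
        have : ∫ ω, ε n ω * ε n ω ∂μ ≤ ∫ _, (1 : ℝ) ∂μ := by
          refine integral_mono i3 (integrable_const _) fun ω => ?_
          have := h1 n ω
          rw [abs_le] at this
          simp only
          nlinarith
        simpa using this
      have : ∫ ω, S n ω * ε n ω ∂μ ≤ 0 := hneg n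
      push_cast
      linarith
  let F : ℕ → Ω → ENNReal := fun k ω =>
    ENNReal.ofReal ((S (k * k) ω / ((k * k : ℕ) : ℝ)) ^ 2)
  have hFm : ∀ k, Measurable (F k) := fun k =>
    (((hSm _).div_const _).pow_const 2).ennreal_ofReal
  have hFb : ∀ k, ∫⁻ ω, F k ω ∂μ ≤ ENNReal.ofReal (1 / (k : ℝ) ^ 2) := by
    intro k
    have i1 := hint _ _ _ _ (hSm (k * k)) (hSm (k * k)) (hSb _) (hSb _)
    have e : ∀ ω, (S (k * k) ω / ((k * k : ℕ) : ℝ)) ^ 2 =
        S (k * k) ω * S (k * k) ω / ((k * k : ℕ) : ℝ) ^ 2 := fun ω => by ring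
    simp only [F, e]
    rw [← ofReal_integral_eq_lintegral_ofReal (i1.div_const _)
      (ae_of_all _ fun ω => div_nonneg (mul_self_nonneg _) (sq_nonneg _))]
    apply ENNReal.ofReal_le_ofReal
    rw [integral_div]
    rcases Nat.eq_zero_or_pos k with rfl | hk
    · simp
    · have hkR : (0 : ℝ) < k := by exact_mod_cast hk
      refine (div_le_div_of_nonneg_right (hvar _) (sq_nonneg _)).trans (le_of_eq ?_)
      push_cast; field_simp
  have hsum : ∫⁻ ω, ∑' k, F k ω ∂μ ≠ ⊤ := by
    rw [lintegral_tsum fun k => (hFm k).aemeasurable]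
    refine ne_top_of_le_ne_top ?_ (ENNReal.tsum_le_tsum hFb)
    rw [← ENNReal.ofReal_tsum_of_nonneg (fun n => by positivity)
      (Real.summable_one_div_nat_pow.2 (by norm_num))]
    exact ENNReal.ofReal_ne_top
  have hae := ae_lt_top (Measurable.tsum hFm) hsum
  filter_upwards [hae] with ω hω
  have h0 := ENNReal.tendsto_atTop_zero_of_tsum_ne_top hω.ne
  apply tendsto_of_squares (fun i => ε i ω) (fun i => h1 i ω)
  have h2 : Tendsto (fun k : ℕ => (S (k * k) ω / ((k * k : ℕ) : ℝ)) ^ 2) atTop (𝓝 0) := by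
    have := (ENNReal.tendsto_toReal ENNReal.zero_ne_top).comp h0
    simp only [ENNReal.toReal_zero] at this
    refine this.congr fun k => ?_
    simp only [Function.comp, F]
    exact ENNReal.toReal_ofReal (sq_nonneg _)
  have h3 := (Real.continuous_sqrt.tendsto 0).comp h2
  simp only [Real.sqrt_zero] at h3
  rw [tendsto_zero_iff_abs_tendsto_zero]
  refine h3.congr fun k => ?_
  simp only [Function.comp, Real.sqrt_sq_eq_abs]
  rfl

instance : IsProbabilityMeasure coin := by unfold coin; infer_instance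

/-- The sign attached to a bit. -/
def sgn (b : Bool) : ℝ := if b then 1 else -1

lemma abs_sgn (b : Bool) : |sgn b| = 1 := by cases b <;> simp [sgn]

lemma sgn_xor (a b : Bool) : sgn (xor a b) = - (sgn a * sgn b) := by
  cases a <;> cases b <;> simp [sgn]

lemma measurable_pre (u : ℕ) (φ : List Bool → ℝ) : Measurable fun B : ℕ → Bool => φ (pre B u) := by
  induction u generalizing φ with
  | zero => simp
  | succ u ih =>
    have : (fun B : ℕ → Bool => φ (pre B (u + 1))) = fun B =>
        if B u = true then φ (pre B u ++ [true]) else φ (pre B u ++ [false]) := by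
      funext B
      rw [pre_succ]
      cases B u <;> simp
    rw [this]
    refine Measurable.ite ?_ (ih fun σ => φ (σ ++ [true])) (ih fun σ => φ (σ ++ [false]))
    exact measurableSet_eq_fun (measurable_pi_apply u) measurable_const

lemma bounded_pre (u : ℕ) (φ : List Bool → ℝ) : ∃ C, ∀ B : ℕ → Bool, |φ (pre B u)| ≤ C := by
  induction u generalizing φ with
  | zero => exact ⟨|φ []|, fun _ => le_rfl⟩
  | succ u ih =>
    obtain ⟨C, hC⟩ := ih fun σ => φ (σ ++ [true])
    obtain ⟨D, hD⟩ := ih fun σ => φ (σ ++ [false])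
    refine ⟨max C D, fun B => ?_⟩
    rw [pre_succ]
    cases B u
    · exact (hD B).trans (le_max_right _ _)
    · exact (hC B).trans (le_max_left _ _)

lemma integrable_pre (u : ℕ) (φ : List Bool → ℝ) :
    Integrable (fun B : ℕ → Bool => φ (pre B u)) coin := by
  obtain ⟨C, hC⟩ := bounded_pre u φ
  exact Integrable.of_bound (measurable_pre u φ).aestronglyMeasurable C (ae_of_all _ hC)

lemma integrable_pre_sgn (u : ℕ) (φ : List Bool → ℝ) :
    Integrable (fun B : ℕ → Bool => φ (pre B u) * sgn (B u)) coin := by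
  have := integrable_pre (u + 1) fun σ => φ (σ.take u) * sgn (σ.getD u false)
  refine this.congr (ae_of_all _ fun B => ?_)
  simp only
  rw [take_pre B (Nat.le_succ u), getD_pre B (Nat.lt_succ_self u)]

lemma map_not_uniform :
    (PMF.uniformOfFintype Bool).toMeasure.map (fun b => !b) =
      (PMF.uniformOfFintype Bool).toMeasure := by
  apply Measure.ext_of_singleton
  intro b
  rw [Measure.map_apply (measurable_of_countable _) (measurableSet_singleton _)]
  have : (fun b => !b) ⁻¹' {b} = {!b} := by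
    ext x; cases x <;> cases b <;> simp
  rw [this, PMF.toMeasure_apply_singleton _ _ (measurableSet_singleton _),
    PMF.toMeasure_apply_singleton _ _ (measurableSet_singleton _)]
  simp

lemma integral_pre_sgn (u : ℕ) (φ : List Bool → ℝ) :
    ∫ B, φ (pre B u) * sgn (B u) ∂coin = 0 := by
  let f : ℕ → Bool → Bool := fun i b => if i = u then !b else b
  have hf : ∀ i, Measurable (f i) := fun i => measurable_of_countable _
  have hmap : coin.map (fun x i => f i (x i)) = coin := by
    unfold coin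
    rw [Measure.infinitePi_map_pi _ hf]
    congr 1
    funext i
    by_cases h : i = u
    · simp only [f, if_pos h]; exact map_not_uniform
    · simp only [f, if_neg h]; exact Measure.map_id
  have hT : Measurable fun (x : ℕ → Bool) i => f i (x i) :=
    measurable_pi_lambda _ fun i => (hf i).comp (measurable_pi_apply i)
  have h1 : ∫ B, φ (pre B u) * sgn (B u) ∂coin =
      ∫ B, φ (pre (fun i => f i (B i)) u) * sgn (f u (B u)) ∂coin := by
    conv_lhs => rw [← hmap]
    rw [integral_map hT.aemeasurable]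
    rw [hmap]
    exact (integrable_pre_sgn u φ).aestronglyMeasurable
  have h2 : ∀ B : ℕ → Bool, φ (pre (fun i => f i (B i)) u) * sgn (f u (B u)) =
      - (φ (pre B u) * sgn (B u)) := by
    intro B
    have : pre (fun i => f i (B i)) u = pre B u :=
      pre_congr fun i hi => by simp [f, hi.ne]
    rw [this]
    cases h : B u <;> simp [f, sgn]
  simp only [h2, integral_neg] at h1
  linarith

/-- All binary strings of a given length. -/
def allStr : ℕ → List (List Bool)
  | 0 => [[]]
  | u + 1 => (allStr u).flatMap fun σ => [σ ++ [false], σ ++ [true]]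

lemma integral_pre (u : ℕ) (φ : List Bool → ℝ) :
    2 ^ u * ∫ B, φ (pre B u) ∂coin = ((allStr u).map φ).sum := by
  induction u generalizing φ with
  | zero => simp [allStr]
  | succ u ih =>
    have e : ∀ B : ℕ → Bool, φ (pre B (u + 1)) =
        (φ (pre B u ++ [false]) + φ (pre B u ++ [true])) / 2 +
          (φ (pre B u ++ [true]) - φ (pre B u ++ [false])) / 2 * sgn (B u) := by
      intro B
      rw [pre_succ]
      cases B u <;> simp [sgn] <;> ring
    simp only [e]
    rw [integral_add (integrable_pre u fun σ => (φ (σ ++ [false]) + φ (σ ++ [true])) / 2)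
      (integrable_pre_sgn u fun σ => (φ (σ ++ [true]) - φ (σ ++ [false])) / 2),
      integral_pre_sgn u fun σ => (φ (σ ++ [true]) - φ (σ ++ [false])) / 2, add_zero, pow_succ,
      mul_comm _ (2 : ℝ), mul_assoc, ih fun σ => (φ (σ ++ [false]) + φ (σ ++ [true])) / 2]
    simp only [allStr]
    induction allStr u with
    | nil => simp
    | cons σ L ihL =>
      simp only [List.map_cons, List.sum_cons, List.flatMap_cons, List.map_append,
        List.sum_append, List.map_nil, List.sum_nil, mul_add, ihL]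
      ring

/-- Almost every `B` is at density one half from a fixed `X`. -/
lemma slln_fixed (X : ℕ → Bool) : ∀ᵐ B ∂coin,
    Tendsto (fun n : ℕ => (∑ i ∈ range n, sgn (xor (X i) (B i))) / n) atTop (𝓝 0) := by
  refine slln2 coin (fun i B => sgn (xor (X i) (B i))) (fun i => ?_)
    (fun i B => (abs_sgn _).le) fun n => le_of_eq ?_
  · exact (measurable_of_countable fun b => sgn (xor (X i) b)).comp (measurable_pi_apply i)
  · rw [← integral_pre_sgn n fun σ => (∑ i ∈ range n, sgn (xor (X i) (σ.getD i false))) * (- sgn (X n))]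
    refine integral_congr_ae (ae_of_all _ fun B => ?_)
    simp only
    have e : ∑ i ∈ range n, sgn (xor (X i) ((pre B n).getD i false)) =
        ∑ i ∈ range n, sgn (xor (X i) (B i)) :=
      Finset.sum_congr rfl fun i hi => by rw [getD_pre B (mem_range.mp hi)]
    rw [sgn_xor (X n), e]
    ring

end Pool.Agent.MP_9fb7a1_lc

end

-- part MP_9fb7a1_lc.Density
section

namespace Pool.Agent.MP_9fb7a1_lc

open Filter Topology Finset Pool.Agent.Lib.Oracle

/-- Number of disagreements below `n`. -/
def DD (X Y : ℕ → Bool) (n : ℕ) : ℕ := ((range n).filter fun i => xor (X i) (Y i) = true).card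

lemma delta_eq (X Y : ℕ → Bool) :
    delta X Y = limsup (fun n : ℕ => (DD X Y n : ℝ) / n) atTop := rfl

lemma DD_le (X Y : ℕ → Bool) (n : ℕ) : DD X Y n ≤ n :=
  (card_filter_le _ _).trans (by simp)

lemma DD_comm (X Y : ℕ → Bool) (n : ℕ) : DD X Y n = DD Y X n := by
  unfold DD; simp only [Bool.xor_comm]

lemma DD_triangle (X Y Z : ℕ → Bool) (n : ℕ) : DD X Z n ≤ DD X Y n + DD Y Z n := by
  unfold DD
  refine le_trans (card_le_card ?_) (card_union_le _ _)
  intro i hi
  simp only [mem_filter, mem_union] at hi ⊢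
  obtain ⟨h1, h2⟩ := hi
  revert h2
  cases X i <;> cases Y i <;> cases Z i <;> simp [mem_range.mp h1]

lemma ratio_nonneg (X Y : ℕ → Bool) (n : ℕ) : (0 : ℝ) ≤ (DD X Y n : ℝ) / n := by positivity

lemma ratio_le_one (X Y : ℕ → Bool) (n : ℕ) : (DD X Y n : ℝ) / n ≤ 1 :=
  div_le_one_of_le₀ (by exact_mod_cast DD_le X Y n) (by positivity)

lemma bdd_above (X Y : ℕ → Bool) :
    IsBoundedUnder (· ≤ ·) atTop fun n : ℕ => (DD X Y n : ℝ) / n :=
  isBoundedUnder_of ⟨1, ratio_le_one X Y⟩

lemma bdd_below (X Y : ℕ → Bool) :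
    IsBoundedUnder (· ≥ ·) atTop fun n : ℕ => (DD X Y n : ℝ) / n :=
  isBoundedUnder_of ⟨0, ratio_nonneg X Y⟩

lemma delta_nonneg (X Y : ℕ → Bool) : 0 ≤ delta X Y :=
  le_limsup_of_frequently_le (Frequently.of_forall (ratio_nonneg X Y)) (bdd_above X Y)

lemma delta_le_one (X Y : ℕ → Bool) : delta X Y ≤ 1 :=
  limsup_le_of_le (bdd_below X Y).isCoboundedUnder_le (Eventually.of_forall (ratio_le_one X Y))

lemma sum_sgn (X Y : ℕ → Bool) (n : ℕ) :
    ∑ i ∈ range n, sgn (xor (X i) (Y i)) = 2 * (DD X Y n : ℝ) - n := by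
  unfold DD
  induction n with
  | zero => simp
  | succ n ih =>
    rw [sum_range_succ, ih, range_add_one, filter_insert]
    cases h : xor (X n) (Y n)
    · simp [sgn]; ring
    · rw [if_pos rfl, card_insert_of_notMem (by simp)]
      simp [sgn]; ring

lemma tendsto_half {X Y : ℕ → Bool}
    (h : Tendsto (fun n : ℕ => (∑ i ∈ range n, sgn (xor (X i) (Y i))) / n) atTop (𝓝 0)) :
    Tendsto (fun n : ℕ => (DD X Y n : ℝ) / n) atTop (𝓝 (1 / 2)) := by
  have h1 := (h.add_const 1).div_const 2
  simp only [zero_add] at h1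
  refine h1.congr' ?_
  filter_upwards [eventually_gt_atTop 0] with n hn
  have : (0 : ℝ) < n := by exact_mod_cast hn
  rw [sum_sgn]
  field_simp
  ring

/-- Coarse similarity. -/
def Small (X Y : ℕ → Bool) : Prop := Tendsto (fun n : ℕ => (DD X Y n : ℝ) / n) atTop (𝓝 0)

lemma tendsto_of_small {X X' Y Y' : ℕ → Bool} {a : ℝ} (hX : Small X X') (hY : Small Y Y')
    (h : Tendsto (fun n : ℕ => (DD X Y n : ℝ) / n) atTop (𝓝 a)) :
    Tendsto (fun n : ℕ => (DD X' Y' n : ℝ) / n) atTop (𝓝 a) := by
  have h1 := (h.sub hX).sub hY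
  have h2 := (h.add hX).add hY
  simp only [sub_zero, add_zero] at h1 h2
  refine tendsto_of_tendsto_of_tendsto_of_le_of_le h1 h2 (fun n => ?_) fun n => ?_
  · simp only
    rw [← sub_div, ← sub_div]
    refine div_le_div_of_nonneg_right ?_ (by positivity)
    have e1 := DD_triangle X X' Y n
    have e2 := DD_triangle X' Y' Y n
    rw [DD_comm Y' Y] at e2
    have : DD X Y n ≤ DD X X' n + (DD X' Y' n + DD Y Y' n) := by omega
    have : (DD X Y n : ℝ) ≤ DD X X' n + (DD X' Y' n + DD Y Y' n) := by exact_mod_cast this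
    linarith
  · simp only
    rw [← add_div, ← add_div]
    refine div_le_div_of_nonneg_right ?_ (by positivity)
    have e1 := DD_triangle X' X Y' n
    have e2 := DD_triangle X Y Y' n
    rw [DD_comm X' X] at e1
    have : DD X' Y' n ≤ DD X Y n + DD X X' n + DD Y Y' n := by omega
    exact_mod_cast this

lemma small_of_eventually_eq {X Y : ℕ → Bool} (h : ∀ᶠ n in atTop, X n = Y n) : Small X Y := by
  obtain ⟨N, hN⟩ := eventually_atTop.mp h
  refine squeeze_zero (ratio_nonneg X Y) (fun n => ?_)
    (tendsto_const_div_atTop_nhds_zero_nat (N : ℝ))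
  refine div_le_div_of_nonneg_right ?_ (by positivity)
  have : DD X Y n ≤ (range N).card := by
    apply card_le_card
    intro i hi
    simp only [mem_filter, mem_range] at hi ⊢
    by_contra h1
    rw [hN i (not_lt.mp h1)] at hi
    simp at hi
  simpa using this

/-- Code `A` into `X` along the perfect squares. -/
def code (X A : ℕ → Bool) (n : ℕ) : Bool := if n.sqrt * n.sqrt = n then A n.sqrt else X n

lemma small_code (X A : ℕ → Bool) : Small X (code X A) := by
  have hb : Tendsto (fun k : ℕ => 2 / (k : ℝ)) atTop (𝓝 0) :=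
    tendsto_const_div_atTop_nhds_zero_nat 2
  refine squeeze_zero' (Eventually.of_forall (ratio_nonneg _ _)) ?_ (hb.comp tendsto_sqrt_nat)
  filter_upwards [eventually_ge_atTop 1] with n hn
  have hk0 : 1 ≤ n.sqrt := Nat.le_sqrt.2 (by omega)
  have h1 : DD X (code X A) n ≤ n.sqrt + 1 := by
    have : DD X (code X A) n ≤ ((range (n.sqrt + 1)).image fun k => k * k).card := by
      apply card_le_card
      intro i hi
      simp only [mem_filter, mem_range, mem_image] at hi ⊢
      obtain ⟨h1, h2⟩ := hi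
      refine ⟨i.sqrt, Nat.lt_succ_of_le (Nat.sqrt_le_sqrt h1.le), ?_⟩
      by_contra h3
      simp [code, h3] at h2
    exact this.trans (card_image_le.trans (by simp))
  have hkR : (1 : ℝ) ≤ n.sqrt := by exact_mod_cast hk0
  have h2 : (DD X (code X A) n : ℝ) ≤ n.sqrt + 1 := by exact_mod_cast h1
  have h3 : ((n.sqrt : ℝ) * n.sqrt) ≤ n := by exact_mod_cast Nat.sqrt_le n
  simp only [Function.comp]
  rw [div_le_div_iff₀ (by exact_mod_cast hn) (by linarith)]
  nlinarith

lemma oracleOf_eq (A : ℕ → Bool) : oracleOf A = chi A := rfl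

lemma mem_degree {A X : ℕ → Bool} :
    X ∈ degree A ↔ ComputableIn {chi A} X ∧ ComputableIn {chi X} A :=
  and_congr red_chi_iff red_chi_iff

lemma self_mem_degree (A : ℕ → Bool) : A ∈ degree A := mem_degree.2 ⟨cin_self A, cin_self A⟩

attribute [local irreducible] ComputableIn Primrec in
lemma code_mem_degree {X A : ℕ → Bool} (h : ComputableIn {chi A} X) : code X A ∈ degree A := by
  refine mem_degree.2 ⟨?_, ?_⟩
  · have h1 : ComputableIn {chi A} fun n : ℕ => (n, A n.sqrt, X n) :=
      cin_pair ComputableIn.id (cin_pair (cin_comp (cin_self A) Primrec.nat_sqrt.computableIn) h)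
    have h0 : Primrec fun q : ℕ × Bool × Bool => q.1.sqrt := Primrec.nat_sqrt.comp Primrec.fst
    have h2 : Primrec fun q : ℕ × Bool × Bool =>
        if q.1.sqrt * q.1.sqrt = q.1 then q.2.1 else q.2.2 :=
      Primrec.ite (Primrec.eq.comp (Primrec.nat_mul.comp h0 h0) Primrec.fst)
        (Primrec.fst.comp Primrec.snd) (Primrec.snd.comp Primrec.snd)
    exact cin_of_eq (cin_comp h2.computableIn h1) fun _ => rfl
  · have h1 : Primrec fun k : ℕ => k * k := Primrec.nat_mul.comp Primrec.id Primrec.id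
    refine cin_of_eq (cin_comp (cin_self (code X A)) h1.computableIn) fun k => ?_
    simp [code, Nat.sqrt_eq]

lemma le_delta {X C C' : ℕ → Bool} (hC : Small C C')
    (h : ∃ᶠ n : ℕ in atTop, (3 / 4 : ℝ) ≤ (DD X C n : ℝ) / n) : 2 / 3 ≤ delta X C' := by
  refine le_limsup_of_frequently_le ?_ (bdd_above X C')
  have h1 : ∀ᶠ n : ℕ in atTop, (DD C C' n : ℝ) / n < 1 / 12 :=
    hC.eventually (gt_mem_nhds (by norm_num))
  refine (h.and_eventually h1).mono fun n ⟨h2, h3⟩ => ?_
  have e1 := DD_triangle X C' C n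
  rw [DD_comm C' C] at e1
  have e2 : (DD X C n : ℝ) ≤ DD X C' n + DD C C' n := by exact_mod_cast e1
  have e3 : (DD X C n : ℝ) / n ≤ DD X C' n / n + DD C C' n / n := by
    rw [← add_div]; exact div_le_div_of_nonneg_right e2 (by positivity)
  change 2 / 3 ≤ (DD X C' n : ℝ) / n
  linarith

instance (A : ℕ → Bool) : Nonempty (degree A) := ⟨⟨A, self_mem_degree A⟩⟩

lemma le_sup_inf {A B Y : ℕ → Bool} {a : ℝ} (hY : Y ∈ degree B)
    (h : ∀ X ∈ degree A, a ≤ delta X Y) : a ≤ hDist A B := by
  refine le_max_of_le_right (le_ciSup_of_le ?_ ⟨Y, hY⟩ (le_ciInf fun X => h X X.2))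
  refine ⟨1, ?_⟩
  rintro _ ⟨Z, rfl⟩
  exact ciInf_le_of_le ⟨0, by rintro _ ⟨X, rfl⟩; exact delta_nonneg _ _⟩ ⟨A, self_mem_degree A⟩
    (delta_le_one _ _)

lemma hDist_eq_half {A B : ℕ → Bool} (h1 : ∀ X ∈ degree A, delta X B = 1 / 2)
    (h2 : ∀ Y ∈ degree B, ∃ X ∈ degree A, delta X Y = 1 / 2) : hDist A B = 1 / 2 := by
  refine le_antisymm (max_le (ciSup_le fun X => ?_) (ciSup_le fun Y => ?_))
    (le_sup_inf (self_mem_degree B) fun X hX => (h1 X hX).ge)
  · exact ciInf_le_of_le ⟨0, by rintro _ ⟨Y, rfl⟩; exact delta_nonneg _ _⟩ ⟨B, self_mem_degree B⟩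
      (h1 X X.2).le
  · obtain ⟨X, hX, h⟩ := h2 Y Y.2
    exact ciInf_le_of_le ⟨0, by rintro _ ⟨X, rfl⟩; exact delta_nonneg _ _⟩ ⟨X, hX⟩ h.le

end Pool.Agent.MP_9fb7a1_lc

end

-- part MP_9fb7a1_lc.Greedy
section

namespace Pool.Agent.MP_9fb7a1_lc

open Filter MeasureTheory Topology Finset Pool.Agent.Lib.Oracle
open Nat.Partrec Nat.Partrec.Code

attribute [local irreducible] ComputableIn Primrec Phi

/-- Truth-table evaluation with a finite oracle cut at length `u`. -/
def psi (c : Code) (σ : List Bool) (u x : ℕ) : Bool := decide (Phi c (σ.take u) x = some 1)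

/-- The truth-table functional attached to a code and a time bound. -/
def Psi (c : Code) (g : ℕ → ℕ) (B : ℕ → Bool) (x : ℕ) : Bool :=
  decide (Phi c (pre B (g x)) x = some 1)

lemma psi_pre (c : Code) (g : ℕ → ℕ) (B : ℕ → Bool) {u x : ℕ} (h : g x ≤ u) :
    psi c (pre B u) (g x) x = Psi c g B x := by
  unfold psi Psi
  rw [take_pre B h]

def term (c : Code) (γ : List ℕ) (χ : List Bool) (σ : List Bool) (i : ℕ) : Bool :=
  xor (xor (χ.getD i false) (psi c σ (γ.getD i 0) i)) (psi c σ (γ.getD χ.length 0) χ.length)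

def cnt (c : Code) (b : Bool) (γ : List ℕ) (χ : List Bool) : ℕ :=
  ((allStr γ.sum).map fun σ =>
    ((List.range χ.length).map fun i => if term c γ χ σ i = b then 1 else 0).sum).sum

def Xl (c : Code) (g : ℕ → ℕ) (n : ℕ) : List Bool :=
  Nat.rec (motive := fun _ => List Bool) []
    (fun n χ => χ ++ [decide (cnt c true (pre g (n + 1)) χ ≤ cnt c false (pre g (n + 1)) χ)]) n

def XX (c : Code) (g : ℕ → ℕ) (n : ℕ) : Bool := (Xl c g (n + 1)).getD n false

lemma Xl_succ (c : Code) (g : ℕ → ℕ) (n : ℕ) : Xl c g (n + 1) = Xl c g n ++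
    [decide (cnt c true (pre g (n + 1)) (Xl c g n) ≤ cnt c false (pre g (n + 1)) (Xl c g n))] := rfl

lemma length_Xl (c : Code) (g : ℕ → ℕ) (n : ℕ) : (Xl c g n).length = n := by
  induction n with
  | zero => rfl
  | succ n ih => rw [Xl_succ]; simp [ih]

lemma XX_eq (c : Code) (g : ℕ → ℕ) (n : ℕ) : XX c g n =
    decide (cnt c true (pre g (n + 1)) (Xl c g n) ≤ cnt c false (pre g (n + 1)) (Xl c g n)) := by
  unfold XX
  rw [Xl_succ, List.getD_append_right _ _ _ _ (by rw [length_Xl])]
  simp [length_Xl]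

lemma Xl_eq (c : Code) (g : ℕ → ℕ) (n : ℕ) : Xl c g n = pre (XX c g) n := by
  induction n with
  | zero => rfl
  | succ n ih => rw [pre_succ, XX_eq, ← ih, Xl_succ]

lemma primrec_sum : Primrec fun l : List ℕ => l.sum :=
  (Primrec.list_foldr (h := fun (_ : List ℕ) (p : ℕ × ℕ) => p.1 + p.2) Primrec.id (Primrec.const 0)
    (Primrec.nat_add.comp (Primrec.fst.comp Primrec.snd) (Primrec.snd.comp Primrec.snd)).to₂).of_eq
    fun l => by simp [List.sum_eq_foldr]

lemma primrec_allStr : Primrec allStr := by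
  have h1 : Primrec fun q : (ℕ × List (List Bool)) × List Bool => [q.2 ++ [false], q.2 ++ [true]] :=
    Primrec.list_cons.comp (Primrec.list_concat.comp Primrec.snd (Primrec.const false))
      (Primrec.list_cons.comp (Primrec.list_concat.comp Primrec.snd (Primrec.const true))
        (Primrec.const []))
  have h2 : Primrec₂ fun (_ : ℕ) (L : List (List Bool)) =>
      L.flatMap fun σ => [σ ++ [false], σ ++ [true]] :=
    (Primrec.list_flatMap (g := fun _ σ => [σ ++ [false], σ ++ [true]]) Primrec.snd h1.to₂).to₂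
  refine (Primrec.nat_rec₁ [[]] h2).of_eq fun n => ?_
  induction n with
  | zero => rfl
  | succ n ih => simp only [allStr, ← ih]

lemma primrec_psi (c : Code) : Primrec fun q : List Bool × ℕ × ℕ => psi c q.1 q.2.1 q.2.2 := by
  have h1 : Primrec fun q : List Bool × ℕ × ℕ => (c, q.1.take q.2.1, q.2.2) :=
    (Primrec.const c).pair ((Primrec.list_take.comp (Primrec.fst.comp Primrec.snd) Primrec.fst).pair
      (Primrec.snd.comp Primrec.snd))
  have h2 : Primrec fun q : List Bool × ℕ × ℕ => Phi c (q.1.take q.2.1) q.2.2 :=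
    primrec_Phi.comp h1
  exact (Primrec.eq.comp h2 (Primrec.const (some 1))).decide

lemma primrec_term (c : Code) : Primrec fun q : ((List ℕ × List Bool) × List Bool) × ℕ =>
    term c q.1.1.1 q.1.1.2 q.1.2 q.2 := by
  have hγ : Primrec fun q : ((List ℕ × List Bool) × List Bool) × ℕ => q.1.1.1 :=
    Primrec.fst.comp (Primrec.fst.comp Primrec.fst)
  have hχ : Primrec fun q : ((List ℕ × List Bool) × List Bool) × ℕ => q.1.1.2 :=
    Primrec.snd.comp (Primrec.fst.comp Primrec.fst)
  have hσ : Primrec fun q : ((List ℕ × List Bool) × List Bool) × ℕ => q.1.2 :=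
    Primrec.snd.comp Primrec.fst
  have hl : Primrec fun q : ((List ℕ × List Bool) × List Bool) × ℕ => q.1.1.2.length :=
    Primrec.list_length.comp hχ
  have h1 : Primrec fun q : ((List ℕ × List Bool) × List Bool) × ℕ => q.1.1.2.getD q.2 false :=
    (Primrec.list_getD false).comp hχ Primrec.snd
  have h2 : Primrec fun q : ((List ℕ × List Bool) × List Bool) × ℕ =>
      psi c q.1.2 (q.1.1.1.getD q.2 0) q.2 :=
    (primrec_psi c).comp (hσ.pair (((Primrec.list_getD 0).comp hγ Primrec.snd).pair Primrec.snd))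
  have h3 : Primrec fun q : ((List ℕ × List Bool) × List Bool) × ℕ =>
      psi c q.1.2 (q.1.1.1.getD q.1.1.2.length 0) q.1.1.2.length :=
    (primrec_psi c).comp (hσ.pair (((Primrec.list_getD 0).comp hγ hl).pair hl))
  exact (Primrec.dom_bool₂ xor).comp ((Primrec.dom_bool₂ xor).comp h1 h2) h3

lemma primrec_cnt (c : Code) (b : Bool) :
    Primrec fun q : List ℕ × List Bool => cnt c b q.1 q.2 := by
  have h1 : Primrec fun q : ((List ℕ × List Bool) × List Bool) × ℕ =>
      if term c q.1.1.1 q.1.1.2 q.1.2 q.2 = b then 1 else 0 :=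
    Primrec.ite (Primrec.eq.comp (primrec_term c) (Primrec.const b)) (Primrec.const 1)
      (Primrec.const 0)
  have h2 : Primrec fun q : (List ℕ × List Bool) × List Bool =>
      ((List.range q.1.2.length).map fun i => if term c q.1.1 q.1.2 q.2 i = b then 1 else 0).sum :=
    primrec_sum.comp (Primrec.list_map
      (Primrec.list_range.comp (Primrec.list_length.comp (Primrec.snd.comp Primrec.fst))) h1.to₂)
  exact primrec_sum.comp (Primrec.list_map
    (primrec_allStr.comp (primrec_sum.comp Primrec.fst)) h2.to₂)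

lemma cin_XX {O : Set (ℕ →. ℕ)} (c : Code) {g : ℕ → ℕ} (hg : ComputableIn O g) :
    ComputableIn O (XX c g) := by
  have h0 : Primrec fun q : List ℕ × List Bool =>
      q.2 ++ [decide (cnt c true q.1 q.2 ≤ cnt c false q.1 q.2)] :=
    Primrec.list_concat.comp Primrec.snd
      (Primrec.nat_le.comp (primrec_cnt c true) (primrec_cnt c false)).decide
  have h1 : ComputableIn O fun p : ℕ × (ℕ × List Bool) => (pre g (p.2.1 + 1), p.2.2) :=
    cin_pair (cin_comp (cin_pre hg)
      (Primrec.succ.comp (Primrec.fst.comp Primrec.snd)).computableIn)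
      (Primrec.snd.comp Primrec.snd).computableIn
  have h2 : ComputableIn O fun p : ℕ × (ℕ × List Bool) => p.2.2 ++
      [decide (cnt c true (pre g (p.2.1 + 1)) p.2.2 ≤ cnt c false (pre g (p.2.1 + 1)) p.2.2)] :=
    cin_comp h0.computableIn h1
  have h3 : ComputableIn O (Xl c g) :=
    cin_nat_rec (f := fun n : ℕ => n) (g := fun _ => ([] : List Bool))
      (h := fun _ p => p.2 ++
        [decide (cnt c true (pre g (p.1 + 1)) p.2 ≤ cnt c false (pre g (p.1 + 1)) p.2)])
      ComputableIn.id (ComputableIn.const _) h2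
  have h4 : ComputableIn O fun n : ℕ => (Xl c g (n + 1), n) :=
    cin_pair (cin_comp h3 Primrec.succ.computableIn) ComputableIn.id
  exact cin_comp (f := fun q : List Bool × ℕ => q.1.getD q.2 false)
    (Primrec.computableIn (Primrec.list_getD false)) h4

lemma sgn_mul (a b : Bool) : sgn a * sgn b =
    ((if xor a b = false then 1 else 0 : ℕ) : ℝ) - ((if xor a b = true then 1 else 0 : ℕ) : ℝ) := by
  cases a <;> cases b <;> simp [sgn]

lemma list_sum_sub {α : Type*} (L : List α) (f g : α → ℕ) :
    (L.map fun a => (f a : ℝ) - (g a : ℝ)).sum = ((L.map f).sum : ℕ) - (((L.map g).sum : ℕ) : ℝ) := by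
  induction L with
  | nil => simp
  | cons a L ih => simp only [List.map_cons, List.sum_cons, ih]; push_cast; ring

lemma sum_range_list (f : ℕ → ℝ) (n : ℕ) :
    ∑ i ∈ range n, f i = ((List.range n).map f).sum := by
  induction n with
  | zero => simp
  | succ n ih => simp [Finset.sum_range_succ, List.range_succ, ih]

lemma le_sum_pre (g : ℕ → ℕ) {i n : ℕ} (h : i < n) : g i ≤ (pre g n).sum :=
  List.le_sum_of_mem (List.mem_map.2 ⟨i, List.mem_range.2 h, rfl⟩)

lemma integral_greedy (c : Code) (g : ℕ → ℕ) (n : ℕ) :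
    2 ^ (pre g (n + 1)).sum *
      ∫ B, (∑ i ∈ range n, sgn (xor (XX c g i) (Psi c g B i))) * sgn (Psi c g B n) ∂coin =
      (cnt c false (pre g (n + 1)) (Xl c g n) : ℝ) - cnt c true (pre g (n + 1)) (Xl c g n) := by
  set γ := pre g (n + 1) with hγ
  set χ := Xl c g n with hχ
  have hl : χ.length = n := length_Xl c g n
  let φ : List Bool → ℝ := fun σ =>
    (((List.range χ.length).map fun i => if term c γ χ σ i = false then 1 else 0).sum : ℕ) -
    ((((List.range χ.length).map fun i => if term c γ χ σ i = true then 1 else 0).sum : ℕ) : ℝ)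
  have h1 : ∀ B : ℕ → Bool, (∑ i ∈ range n, sgn (xor (XX c g i) (Psi c g B i))) *
      sgn (Psi c g B n) = φ (pre B γ.sum) := by
    intro B
    simp only [φ]
    rw [← list_sum_sub, hl, Finset.sum_mul, ← sum_range_list]
    refine Finset.sum_congr rfl fun i hi => ?_
    have hi' := mem_range.mp hi
    have : term c γ χ (pre B γ.sum) i = xor (xor (XX c g i) (Psi c g B i)) (Psi c g B n) := by
      unfold term
      rw [hl, hχ, Xl_eq, getD_pre _ hi', hγ, getD_pre g (by omega : i < n + 1),
        getD_pre g (Nat.lt_succ_self n), psi_pre c g B (le_sum_pre g (by omega)),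
        psi_pre c g B (le_sum_pre g (Nat.lt_succ_self n))]
    rw [this, sgn_mul]
  simp only [h1]
  rw [integral_pre, list_sum_sub]
  rfl

/-- The greedy set is at density one half from `Psi c g B` for almost every `B`. -/
lemma slln_greedy (c : Code) (g : ℕ → ℕ) : ∀ᵐ B ∂coin,
    Tendsto (fun n : ℕ => (∑ i ∈ range n, sgn (xor (XX c g i) (Psi c g B i))) / n) atTop (𝓝 0) := by
  refine slln2 coin (fun i B => sgn (xor (XX c g i) (Psi c g B i))) (fun i => ?_)
    (fun i B => (abs_sgn _).le) fun n => ?_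
  · exact measurable_pre (g i) fun σ => sgn (xor (XX c g i) (decide (Phi c σ i = some 1)))
  · have h := integral_greedy c g n
    have e : ∀ B, (∑ i ∈ range n, sgn (xor (XX c g i) (Psi c g B i))) *
        sgn (xor (XX c g n) (Psi c g B n)) = - sgn (XX c g n) *
          ((∑ i ∈ range n, sgn (xor (XX c g i) (Psi c g B i))) * sgn (Psi c g B n)) := by
      intro B; rw [sgn_xor (XX c g n)]; ring
    simp only [e]
    rw [integral_const_mul]
    set I := ∫ B, (∑ i ∈ range n, sgn (xor (XX c g i) (Psi c g B i))) * sgn (Psi c g B n) ∂coin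
    have hpos : (0 : ℝ) < 2 ^ (pre g (n + 1)).sum := by positivity
    rw [XX_eq]
    by_cases hc : cnt c true (pre g (n + 1)) (Xl c g n) ≤ cnt c false (pre g (n + 1)) (Xl c g n)
    · have h1 : (cnt c true (pre g (n + 1)) (Xl c g n) : ℝ) ≤
          cnt c false (pre g (n + 1)) (Xl c g n) := by exact_mod_cast hc
      have h2 : 0 ≤ I := (mul_nonneg_iff_of_pos_left hpos).mp (by linarith)
      simp [hc, sgn, h2]
    · have h1 : (cnt c false (pre g (n + 1)) (Xl c g n) : ℝ) ≤
          cnt c true (pre g (n + 1)) (Xl c g n) := by exact_mod_cast (not_le.mp hc).le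
      have h2 : I ≤ 0 := by
        by_contra h3
        have := mul_pos hpos (not_le.mp h3)
        linarith
      simp [hc, sgn, h2]

end Pool.Agent.MP_9fb7a1_lc

end

-- part MP_9fb7a1_lc.Main
section

namespace Pool.Agent.MP_9fb7a1_lc

open Filter MeasureTheory Topology Finset Pool.Agent.Lib.Oracle
open Nat.Partrec Nat.Partrec.Code

lemma red_iff {f : ℕ → ℕ} {B : ℕ → Bool} :
    TuringReducible (fun n => Part.some (f n)) (oracleOf B) ↔ ComputableIn {chi B} f := Iff.rfl

attribute [local irreducible] ComputableIn Primrec Phi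

lemma Phi_eq_of_isSome {c : Code} (hc : Good c) {B : ℕ → Bool} {x y s : ℕ}
    (h : ∀ᶠ n in atTop, Phi c (pre B n) x = some y) (hs : (Phi c (pre B s) x).isSome = true) :
    Phi c (pre B s) x = some y := by
  obtain ⟨z, hz⟩ := Option.isSome_iff_exists.mp hs
  obtain ⟨n, h1, h2⟩ := (h.and (eventually_ge_atTop s)).exists
  rw [Phi_mono hc (pre_isPrefix B h2) hz] at h1
  rw [hz, h1]

lemma decide_toNat (b : Bool) : decide (some b.toNat = some 1) = b := by cases b <;> simp

lemma primrec_Phi_code (c : Code) : Primrec fun q : List Bool × ℕ => Phi c q.1 q.2 :=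
  primrec_Phi.comp ((Primrec.const c).pair Primrec.id)

/-- Almost everywhere dominating sets are attractive. -/
theorem attractive_of_aeDominating {A : ℕ → Bool} (hA : AEDominating A) : Attractive A := by
  have hb : ∀ᵐ B ∂coin, ∀ X ∈ {X : ℕ → Bool | ComputableIn {chi A} X},
      Tendsto (fun n : ℕ => (∑ i ∈ range n, sgn (xor (X i) (B i))) / n) atTop (𝓝 0) :=
    (ae_ball_iff (countable_computableIn_bool A)).2 fun X _ => slln_fixed X
  have hc : ∀ᵐ B ∂coin, ∀ c : Code, ∀ g ∈ {g : ℕ → ℕ | ComputableIn {chi A} g},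
      Tendsto (fun n : ℕ => (∑ i ∈ range n, sgn (xor (XX c g i) (Psi c g B i))) / n)
        atTop (𝓝 0) :=
    ae_all_iff.2 fun c => (ae_ball_iff (countable_computableIn A)).2 fun g _ => slln_greedy c g
  filter_upwards [hA, hb, hc] with B ha hb hc
  refine hDist_eq_half (fun X hX => ?_) fun Y hY => ?_
  · exact (tendsto_half (hb X (mem_degree.1 hX).1)).limsup_eq
  · obtain ⟨c, hgood, hY'⟩ := exists_good_code B (cin_toNat (mem_degree.1 hY).1)
    have hex : ∀ x, ∃ n, (Phi c (pre B n) x).isSome = true := fun x => by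
      obtain ⟨n, hn⟩ := (hY' x).exists
      exact ⟨n, by rw [hn]; rfl⟩
    have h1 : ComputableIn {chi B} fun q : ℕ × ℕ => (pre B q.2, q.1) :=
      cin_pair (cin_comp (cin_pre (cin_self B)) ComputableIn.snd) ComputableIn.fst
    have h2 : ComputableIn {chi B} fun q : ℕ × ℕ => (Phi c (pre B q.2) q.1).isSome :=
      cin_of_eq (cin_comp (Primrec.option_isSome.comp (primrec_Phi_code c)).computableIn h1)
        fun _ => rfl
    obtain ⟨g, hg, hdom⟩ := ha _ (red_iff.2 (cin_find (p := fun x n => (Phi c (pre B n) x).isSome)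
      h2 hex))
    have hg' := red_iff.1 hg
    have hsm : Small (Psi c g B) Y := by
      apply small_of_eventually_eq
      filter_upwards [hdom] with x hx
      have h3 := Phi_eq_of_isSome hgood (hY' x) (Nat.find_spec (hex x))
      unfold Psi
      rw [Phi_mono hgood (pre_isPrefix B hx) h3, decide_toNat]
    refine ⟨code (XX c g) A, code_mem_degree (cin_XX c hg'), ?_⟩
    exact (tendsto_of_small (small_code _ A) hsm (tendsto_half (hc c g hg'))).limsup_eq

/-- The block containing `x`. -/
def blk (x : ℕ) : ℕ := Nat.findGreatest (fun n => 4 ^ n ≤ x) x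

lemma primrec_pow4 : Primrec fun n : ℕ => 4 ^ n :=
  (Primrec₂.unpaired'.1 Nat.Primrec.pow).comp (Primrec.const 4) Primrec.id

lemma primrec_blk : Primrec blk :=
  Primrec.nat_findGreatest (p := fun x n => 4 ^ n ≤ x) Primrec.id
    (Primrec.nat_le.comp (primrec_pow4.comp Primrec.snd) Primrec.fst)

lemma blk_eq {n x : ℕ} (h1 : 4 ^ n ≤ x) (h2 : x < 4 ^ (n + 1)) : blk x = n := by
  unfold blk
  rw [Nat.findGreatest_eq_iff]
  refine ⟨(Nat.lt_pow_self (by norm_num)).le.trans h1, fun _ => h1, fun j hj _ h => ?_⟩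
  have : 4 ^ (n + 1) ≤ 4 ^ j := Nat.pow_le_pow_right (by norm_num) hj
  omega

/-- Stage `s` of the enumeration given by the code `w`. -/
def stage (w : Code) (s n : ℕ) : Bool := (evaln s w n).isSome

lemma primrec_approx (w : Code) : Primrec fun q : ℕ × ℕ => pre (stage w q.1) q.2 := by
  have h1 : Primrec fun r : (ℕ × ℕ) × ℕ => stage w r.1.1 r.2 :=
    Primrec.option_isSome.comp (primrec_evaln.comp
      (((Primrec.fst.comp Primrec.fst).pair (Primrec.const w)).pair Primrec.snd))
  exact Primrec.list_map (Primrec.list_range.comp Primrec.snd) h1.to₂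

lemma exists_enum {W : ℕ → Bool} (hW : REPred fun n => W n = true) :
    ∃ w : Code, (∀ s n, stage w s n = true → W n = true) ∧
      (∀ s t n, s ≤ t → stage w s n = true → stage w t n = true) ∧
      ∀ n, ∀ᶠ s in atTop, stage w s n = W n := by
  obtain ⟨w, hw⟩ := exists_code.mp hW
  have h1 : ∀ s n, stage w s n = true → W n = true := by
    intro s n h
    obtain ⟨y, hy⟩ := Option.isSome_iff_exists.mp h
    have := evaln_sound (Option.mem_def.mpr hy)
    rw [hw] at this
    simp only [Encodable.decode_nat, Part.coe_some, Part.bind_some, Part.mem_map_iff,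
      Part.mem_assert_iff] at this
    obtain ⟨_, ⟨h, _⟩, _⟩ := this
    exact h
  have h2 : ∀ s t n, s ≤ t → stage w s n = true → stage w t n = true := by
    intro s t n hst h
    obtain ⟨y, hy⟩ := Option.isSome_iff_exists.mp h
    exact Option.isSome_iff_exists.mpr
      ⟨y, Option.mem_def.mp (evaln_mono hst (Option.mem_def.mpr hy))⟩
  refine ⟨w, h1, h2, fun n => ?_⟩
  cases hn : W n
  · refine Eventually.of_forall fun s => ?_
    by_contra h
    have := h1 s n (by simpa using h)
    simp [hn] at this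
  · have : Encodable.encode () ∈ eval w n := by
      rw [hw]
      simp only [Encodable.decode_nat, Part.coe_some, Part.bind_some, Part.mem_map_iff,
        Part.mem_assert_iff]
      exact ⟨(), ⟨hn, Part.mem_some _⟩, trivial⟩
    obtain ⟨k, hk⟩ := evaln_complete.mp this
    filter_upwards [eventually_ge_atTop k] with s hs
    exact h2 k s n hs (Option.isSome_iff_exists.mpr ⟨_, Option.mem_def.mp hk⟩)

/-- The diagonal set. -/
def diag (w : Code) (x s : ℕ) : Bool :=
  !decide (Phi (Denumerable.ofNat Code (blk x).unpair.1) (pre (stage w s) s) x = some 1)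

lemma primrec_diag (w : Code) : Primrec fun q : ℕ × ℕ => diag w q.1 q.2 := by
  have h1 : Primrec fun q : ℕ × ℕ => Denumerable.ofNat Code (blk q.1).unpair.1 :=
    (Primrec.ofNat Code).comp (Primrec.fst.comp (Primrec.unpair.comp (primrec_blk.comp Primrec.fst)))
  have h2 : Primrec fun q : ℕ × ℕ => pre (stage w q.2) q.2 :=
    (primrec_approx w).comp (Primrec.snd.pair Primrec.snd)
  have h3 : Primrec fun q : ℕ × ℕ =>
      Phi (Denumerable.ofNat Code (blk q.1).unpair.1) (pre (stage w q.2) q.2) q.1 :=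
    primrec_Phi.comp (h1.pair (h2.pair Primrec.fst))
  exact Primrec.not.comp (Primrec.eq.comp h3 (Primrec.const (some 1))).decide

/-- The settling test. -/
def settled (w c : Code) (m t : ℕ) (τ : List Bool) : Bool :=
  decide ((∀ x < 4 ^ (Nat.pair (Encodable.encode c) m + 1),
      (Phi c (τ.take t.unpair.1) x).isSome = true) ∧
    pre (stage w t.unpair.2) t.unpair.1 = τ.take t.unpair.1)

lemma primrec_settled (w c : Code) :
    Primrec fun q : (ℕ × ℕ) × List Bool => settled w c q.1.1 q.1.2 q.2 := by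
  have ht : Primrec fun q : (ℕ × ℕ) × List Bool => q.1.2.unpair :=
    Primrec.unpair.comp (Primrec.snd.comp Primrec.fst)
  have hρ : Primrec fun q : (ℕ × ℕ) × List Bool => q.2.take q.1.2.unpair.1 :=
    Primrec.list_take.comp (Primrec.fst.comp ht) Primrec.snd
  have hN : Primrec fun q : (ℕ × ℕ) × List Bool => 4 ^ (Nat.pair (Encodable.encode c) q.1.1 + 1) :=
    primrec_pow4.comp (Primrec.succ.comp
      (Primrec₂.natPair.comp (Primrec.const _) (Primrec.fst.comp Primrec.fst)))
  have h0 : PrimrecRel fun (x : ℕ) (ρ : List Bool) => (Phi c ρ x).isSome = true :=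
    Primrec.eq.comp (Primrec.option_isSome.comp
      ((primrec_Phi_code c).comp (Primrec.snd.pair Primrec.fst))) (Primrec.const true)
  have h00 : PrimrecRel fun (n : ℕ) (ρ : List Bool) =>
      ∀ x ∈ List.range n, (Phi c ρ x).isSome = true :=
    (PrimrecRel.forall_mem_list h0).comp (Primrec.list_range.comp Primrec.fst) Primrec.snd
  have h1 : PrimrecPred fun q : (ℕ × ℕ) × List Bool =>
      ∀ x < 4 ^ (Nat.pair (Encodable.encode c) q.1.1 + 1),
        (Phi c (q.2.take q.1.2.unpair.1) x).isSome = true :=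
    (h00.comp hN hρ).of_eq fun q => by simp only [List.mem_range]
  have h2 : Primrec fun q : (ℕ × ℕ) × List Bool => pre (stage w q.1.2.unpair.2) q.1.2.unpair.1 :=
    (primrec_approx w).comp ((Primrec.snd.comp ht).pair (Primrec.fst.comp ht))
  exact (h1.and (Primrec.eq.comp h2 hρ)).decide

/-- If `B` computes a function not dominated by any `A`-computable function and `A` has c.e.
degree, then the two degrees are far apart. -/
theorem far_of_not_dominated {A B : ℕ → Bool} (hA : HasCEDegree A) {f : ℕ → ℕ}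
    (hf : ComputableIn {chi B} f)
    (hnd : ∀ g : ℕ → ℕ, ComputableIn {chi A} g → ∃ᶠ m in atTop, g m < f m) :
    2 / 3 ≤ hDist A B := by
  obtain ⟨W, hWA, hW⟩ := hA
  obtain ⟨hW1, hW2⟩ := mem_degree.1 hWA
  obtain ⟨w, hs1, hs2, hs3⟩ := exists_enum hW
  let C : ℕ → Bool := fun x => diag w x (f (blk x).unpair.2)
  have hC : ComputableIn {chi B} C :=
    cin_of_eq (cin_comp (primrec_diag w).computableIn (cin_pair ComputableIn.id
      (cin_comp hf (Primrec.snd.comp (Primrec.unpair.comp primrec_blk)).computableIn)))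
      fun _ => rfl
  refine le_sup_inf (code_mem_degree hC) fun X hX => le_delta (small_code C B) ?_
  have hXW : ComputableIn {chi W} X := cin_trans (mem_degree.1 hX).1 hW2
  obtain ⟨c, hgood, hc⟩ := exists_good_code W (cin_toNat hXW)
  have hex : ∀ m, ∃ t, settled w c m t (pre W t) = true := by
    intro m
    have h1 : ∀ᶠ s in atTop, ∀ x ∈ range (4 ^ (Nat.pair (Encodable.encode c) m + 1)),
        Phi c (pre W s) x = some (X x).toNat := (eventually_all_finset _).2 fun x _ => hc x
    obtain ⟨s1, h1⟩ := h1.exists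
    have h2 : ∀ᶠ s in atTop, ∀ i ∈ range s1, stage w s i = W i :=
      (eventually_all_finset _).2 fun i _ => hs3 i
    obtain ⟨s2, h2⟩ := h2.exists
    refine ⟨Nat.pair s1 s2, ?_⟩
    unfold settled
    simp only [Nat.unpair_pair, decide_eq_true_eq]
    rw [take_pre W (Nat.left_le_pair s1 s2)]
    exact ⟨fun x hx => by rw [h1 x (mem_range.mpr hx)]; rfl,
      pre_congr fun i hi => h2 i (mem_range.mpr hi)⟩
  have h1 : ComputableIn {chi W} fun q : ℕ × ℕ => (q, pre W q.2) :=
    cin_pair ComputableIn.id (cin_comp (cin_pre (cin_self W)) ComputableIn.snd)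
  have h2 : ComputableIn {chi W} fun q : ℕ × ℕ => settled w c q.1 q.2 (pre W q.2) :=
    cin_comp (primrec_settled w c).computableIn h1
  have hg := cin_trans (cin_find (p := fun m t => settled w c m t (pre W t)) h2 hex) hW1
  have hT : Tendsto (fun m => 4 ^ (Nat.pair (Encodable.encode c) m + 1)) atTop atTop := by
    refine tendsto_atTop_mono (fun m => ?_) tendsto_id
    exact ((Nat.right_le_pair _ m).trans (Nat.le_succ _)).trans (Nat.lt_pow_self (by norm_num)).le
  refine hT.frequently ((hnd _ hg).mono fun m hm => ?_)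
  have hspec := Nat.find_spec (hex m)
  generalize Nat.find (hex m) = t at hm hspec
  set n := Nat.pair (Encodable.encode c) m with hn
  unfold settled at hspec
  simp only [decide_eq_true_eq] at hspec
  rw [take_pre W (Nat.unpair_left_le t)] at hspec
  obtain ⟨h3, h4⟩ := hspec
  have ht1 : t.unpair.1 ≤ f m := (Nat.unpair_left_le t).trans hm.le
  have ht2 : t.unpair.2 ≤ f m := (Nat.unpair_right_le t).trans hm.le
  have hpre : pre W t.unpair.1 <+: pre (stage w (f m)) (f m) := by
    have : pre W t.unpair.1 = pre (stage w (f m)) t.unpair.1 := by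
      refine pre_congr fun i hi => ?_
      have h5 : stage w t.unpair.2 i = W i := by
        rw [← getD_pre (stage w t.unpair.2) hi false, h4, getD_pre W hi]
      cases hi' : W i
      · by_contra h
        have := hs1 (f m) i (by simpa using h)
        simp [hi'] at this
      · exact (hs2 _ _ i ht2 (h5.trans hi')).symm
    rw [this]
    exact pre_isPrefix _ ht1
  have hdis : ∀ x ∈ Ico (4 ^ n) (4 ^ (n + 1)), xor (X x) (C x) = true := by
    intro x hx
    obtain ⟨hx1, hx2⟩ := mem_Ico.mp hx
    have h5 := Phi_mono hgood hpre (Phi_eq_of_isSome hgood (hc x) (h3 x hx2))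
    simp only [C, diag, blk_eq hx1 hx2, hn, Nat.unpair_pair, Denumerable.ofNat_encode, h5,
      decide_toNat]
    simp
  have hcard : 4 ^ (n + 1) - 4 ^ n ≤ DD X C (4 ^ (n + 1)) := by
    rw [← Nat.card_Ico]
    apply card_le_card
    intro x hx
    exact mem_filter.mpr ⟨mem_range.mpr (mem_Ico.mp hx).2, hdis x hx⟩
  have h6 : 3 * 4 ^ n ≤ DD X C (4 ^ (n + 1)) := by rw [pow_succ] at hcard ⊢; omega
  have h7 : (3 * 4 ^ n : ℝ) ≤ DD X C (4 ^ (n + 1)) := by exact_mod_cast h6
  rw [le_div_iff₀ (by positivity)]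
  push_cast
  rw [pow_succ]
  linarith

theorem aeDominating_of_attractive {A : ℕ → Bool} (hA : HasCEDegree A) (h : Attractive A) :
    AEDominating A := by
  filter_upwards [h] with B hB f hf
  by_contra hcon
  have := far_of_not_dominated hA (red_iff.1 hf) fun g hg => by
    by_contra h1
    refine hcon ⟨g, red_iff.2 hg, ?_⟩
    simpa only [not_frequently, not_lt] using h1
  rw [hB] at this
  norm_num at this

end Pool.Agent.MP_9fb7a1_lc

end
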